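import Pool.Agent.Q260.DS.Stm3
import Pool.Agent.Q251.DS.F1

set_option autoImplicit false

/-! # Project DS (helper260), job FP: the theorem for the general class `WP`
(adapted from `Pool/Agent/Q251/DS/F1.lean`) -/

namespace Pool.Agent.Q177.DS

open Complex Filter Topology Metric Set
open Pool.Agent.Q260.DS
open Pool.Agent.W169.HF H353.E H353.F Q240.GS Q240.OW
open Pool.Agent.Q251.DS.F1 (du cnd_du du_zero sys_mono li_mono ok_fixed half_re half_re' rate)
open scoped ComplexConjugate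

/-- the function in the coordinate `z = s - 1/2` -/
noncomputable def fc (X : ℂ → ℂ) : ℂ → ℂ := fun z => X (1 / 2 + z)

/-- translation -/
lemma It_shift (X : ℂ → ℂ) : ∀ (cs : List ℝ), It (fc X) cs = fun z => It X cs (1 / 2 + z)
  | [] => rfl
  | c :: cs => by
    have ih := It_shift X cs
    funext z
    have h1 : It (fc X) (c :: cs) z = deriv (It (fc X) cs) z - (c : ℂ) * It (fc X) cs z := rfl
    have h2 : It X (c :: cs) (1 / 2 + z) = deriv (It X cs) (1 / 2 + z) -
      (c : ℂ) * It X cs (1 / 2 + z) := rfl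
    rw [h1, h2, ih]
    congr 1
    exact deriv_comp_const_add (f := It X cs) (a := (1 / 2 : ℂ)) (x := z)

lemma It_du (X : ℂ → ℂ) : ∀ (cs : List ℝ), It (du X) cs = fun s => conj (It X cs (conj s))
  | [] => rfl
  | c :: cs => by
    have ih := It_du X cs
    funext s
    have h1 : It (du X) (c :: cs) s = deriv (It (du X) cs) s - (c : ℂ) * It (du X) cs s := rfl
    have h2 : It X (c :: cs) (conj s) = deriv (It X cs) (conj s) - (c : ℂ) * It X cs (conj s) := rfl
    rw [h1, h2, ih, map_sub, map_mul, conj_ofReal]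
    congr 1
    exact congrFun (deriv_conj_conj (𝕜 := ℂ) (f := It X cs)) s

lemma wp_du (h2 : S_DP) {m r : ℕ} {B N : ℝ} {μ : Fin m → ℂ} {X : ℂ → ℂ} (h : WP r B N μ X) :
    WP r B N (fun j => conj (μ j)) (du X) := h2 m r B N μ X h

lemma wp_N {m r : ℕ} {B N : ℝ} {μ : Fin m → ℂ} {X : ℂ → ℂ} (h : WP r B N μ X) :
    1 ≤ N ∧ (∀ j, (μ j).re ≤ 1 / 2) ∧ (∀ s : ℂ, X s = 0 → s.re ≤ 1) ∧
      ∀ s : ℂ, X s = 0 → X (1 - conj s) = 0 := by
  obtain ⟨ε, hε, hfe⟩ := h.fe
  refine ⟨h.one_le, h.re_le, fun s hs => ?_, fun s hs => ?_⟩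
  · by_contra hc
    push Not at hc
    exact h.nz s hc hs
  · rw [hfe (1 - conj s)]
    have e : 1 - conj (1 - conj s) = s := by
      rw [map_sub, map_one, Complex.conj_conj]
      ring
    rw [e, hs, map_zero, mul_zero]

lemma fc_zero {X : ℂ → ℂ} {z : ℂ} : fc X z = 0 ↔ X (1 / 2 + z) = 0 := Iff.rfl

theorem t_FP (h1 : S_SP) (h2 : S_DP) (h3 : S_DI) (h4 : S_RA) (h5 : S_DN) : S_FP := by
  intro m r k M A B hm hM hA hB
  obtain ⟨K, A1, hK, hA1, hSY⟩ := h1 m r M (4 * k) B hm hM (by positivity) hB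
  obtain ⟨A2, hA2⟩ : ∃ A2 : ℝ, A2 = max A A1 := ⟨_, rfl⟩
  have hA21 : A ≤ A2 := by rw [hA2]; exact le_max_left _ _
  have hA22 : A1 ≤ A2 := by rw [hA2]; exact le_max_right _ _
  have hA23 : 1 ≤ A2 := hA.trans hA21
  have hm' : (1 : ℝ) ≤ m := by exact_mod_cast hm
  have hk0 : (0 : ℝ) ≤ k := k.cast_nonneg
  have hS : ∀ (N : ℝ) (μ : Fin m → ℂ) (X : ℂ → ℂ), WP r B N μ X → (∀ j, ‖μ j‖ ≤ M) →
      Sys K A2 (-(4 * k)) (fc X) (el N μ) (gp r N μ) := fun N μ X ho hμ =>
    sys_mono hA1 hA22 (hSY N μ X ho hμ)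
  have hconjM : ∀ μ : Fin m → ℂ, (∀ j, ‖μ j‖ ≤ M) → ∀ j, ‖conj (μ j)‖ ≤ M := fun μ h j => by
    rw [Complex.norm_conj]
    exact h j
  constructor
  · intro ε hε
    obtain ⟨C1, hC1, HDI⟩ := h3 K A2 ε k hK hA23 hε
    obtain ⟨C2, hC2, HDN⟩ := h5 K A2 0 k hK hA23 le_rfl
    obtain ⟨δ, hδ⟩ : ∃ δ : ℝ, δ = 1 / (4 * C2) := ⟨_, rfl⟩
    have hδ0 : 0 < δ := by rw [hδ]; positivity
    have hδ2 : δ ≤ 1 / 2 := by
      rw [hδ]
      apply one_div_le_one_div_of_le (by norm_num)
      linarith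
    have hCδ : C2 * δ = 1 / 4 := by rw [hδ]; field_simp
    obtain ⟨L0, hL0, hok⟩ := ok_fixed hC2 hδ0 hδ2
    obtain ⟨C, hC⟩ : ∃ C : ℝ, C = 2 * (C1 + C2 + L0) + 14 * m + C1 * (1 + 10 * m) + 4 * k := ⟨_, rfl⟩
    have hq : 0 ≤ C1 * (1 + 10 * m) := by positivity
    have hC0 : 1 ≤ C := by rw [hC]; linarith
    refine ⟨C, hC0, ?_⟩
    intro N μ X ho hμ cs hcs
    -- the slope
    have hel : ∀ (μ : Fin m → ℂ) (X : ℂ → ℂ), WP r B N μ X → ∀ y : ℝ, C ≤ Real.log (cnd N μ y) →
        C1 ≤ el N μ y ∧ C2 ≤ el N μ y ∧ L0 ≤ el N μ y ∧ C1 * el N μ y ≤ C * Real.log (cnd N μ y) := by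
      intro μ X ho y hy
      obtain ⟨hN, hre, -, -⟩ := wp_N ho
      obtain ⟨e1, e2⟩ := el_bd hN hre y
      refine ⟨by linarith, by linarith, by linarith, ?_⟩
      have e3 : C1 * el N μ y ≤ C1 * (1 + 10 * m) * Real.log (cnd N μ y) := by
        rw [mul_assoc]
        refine mul_le_mul_of_nonneg_left ?_ (by linarith)
        nlinarith
      refine e3.trans (mul_le_mul_of_nonneg_right ?_ (by linarith))
      rw [hC]
      linarith
    -- heights `≥ 0`
    have half : ∀ (μ : Fin m → ℂ) (X : ℂ → ℂ), WP r B N μ X → (∀ j, ‖μ j‖ ≤ M) → ∀ (s : ℂ) (σ : ℝ), 0 ≤ s.im →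
        X s = 0 → C ≤ Real.log (cnd N μ s.im) → 1 / 2 ≤ σ → σ + ε ≤ s.re →
        ∃ w : ℂ, It X cs w = 0 ∧ σ < w.re ∧ w.re ≤ 5 / 2 ∧
          |w.im - s.im| ≤ C * Real.log (cnd N μ s.im) := by
      intro μ X ho hμ s σ hs0 hs hcn hσ hσs
      obtain ⟨hN, hre, hr1, -⟩ := wp_N ho
      obtain ⟨e1, e2, e3, e4⟩ := hel μ X ho s.im hcn
      obtain ⟨z, hz⟩ : ∃ z : ℂ, z = s - 1 / 2 := ⟨_, rfl⟩
      obtain ⟨hzre, hzim⟩ := half_re s
      rw [← hz] at hzre hzim
      have hfz : fc X z = 0 := by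
        rw [fc_zero, hz]
        rw [show (1 / 2 + (s - 1 / 2) : ℂ) = s by ring]
        exact hs
      obtain ⟨w, w1, w2, w3, w4, w5⟩ := (HDI (-(4 * k)) (fc X) (el N μ) (gp r N μ) (hS N μ X ho hμ) cs
        (li_mono hA21 hcs)).1 z (σ - 1 / 2) hfz (by rw [hzim]; linarith) (by rw [hzim]; exact e1)
        (by linarith) (by rw [hzre]; linarith) (by rw [hzre]; linarith [hr1 s hs])
      rw [It_shift] at w1
      rw [hzim] at w4 w5
      obtain ⟨q1, q2⟩ := half_re' w
      refine ⟨1 / 2 + w, w1, by rw [q1]; linarith, by rw [q1]; linarith, ?_⟩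
      rw [q2, abs_le]
      have h6 : 4 * (k : ℝ) ≤ C * Real.log (cnd N μ s.im) := by
        have h7 : 4 * (k : ℝ) ≤ C := by rw [hC]; linarith
        have h8 : C ≤ C * Real.log (cnd N μ s.im) := by nlinarith
        linarith
      constructor <;> linarith
    refine ⟨?_, ?_⟩
    · intro s σ hs hcn hσ hσs
      rcases le_total 0 s.im with h0 | h0
      · exact half μ X ho hμ s σ h0 hs hcn hσ hσs
      · have hN := (wp_N ho).1
        obtain ⟨w, w1, w2, w3, w4⟩ := half (fun j => conj (μ j)) (du X) (wp_du h2 ho) (hconjM μ hμ)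
          (conj s) σ (by rw [conj_im]; linarith) (du_zero.2 hs)
          (by rw [conj_im, cnd_du]; exact hcn) hσ (by rw [conj_re]; exact hσs)
        rw [conj_im, cnd_du] at w4
        rw [It_du] at w1
        refine ⟨conj w, (map_eq_zero _).1 w1, by rw [conj_re]; exact w2, by rw [conj_re]; exact w3, ?_⟩
        rw [conj_im]
        have e : -w.im - s.im = -(w.im - -s.im) := by ring
        rw [e, abs_neg]
        exact w4
    · intro s σ hs hcn hσ hσs hs52
      obtain ⟨hN, hre, hr1, -⟩ := wp_N ho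
      obtain ⟨e1, e2, e3, e4⟩ := hel μ X ho s.im hcn
      obtain ⟨z, hz⟩ : ∃ z : ℂ, z = s - 1 / 2 := ⟨_, rfl⟩
      obtain ⟨hzre, hzim⟩ := half_re s
      rw [← hz] at hzre hzim
      have hsys := hS N μ X ho hμ
      have hfz : It (fc X) cs z = 0 := by
        rw [It_shift]
        show It X cs (1 / 2 + z) = 0
        rw [hz, show (1 / 2 + (s - 1 / 2) : ℂ) = s by ring]
        exact hs
      have hz1 : z.re ≤ 1 := by
        by_contra hc
        push Not at hc
        have hnz := HDN (-(4 * k)) (fc X) (el N μ) (gp r N μ) hsys cs (li_mono hA21 hcs) s.im (1 / 2) δ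
          e2 (by norm_num) (by rw [hCδ]; norm_num) (hok _ e3) (fun v hv1 hv2 hv3 hv4 h => by
            rw [fc_zero] at h
            have := hr1 _ h
            rw [(half_re' v).1] at this
            linarith)
        exact hnz z (by rw [hCδ]; linarith) (by rw [hzre]; linarith) (by rw [hzim]; linarith)
          (by rw [hzim]; linarith) hfz
      obtain ⟨w, w1, w2, w3, w4⟩ := (HDI (-(4 * k)) (fc X) (el N μ) (gp r N μ) hsys cs
        (li_mono hA21 hcs)).2 z (σ - 1 / 2) hfz (by rw [hzim]; exact e1) (by linarith)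
        (by rw [hzre]; linarith) hz1
      rw [fc_zero] at w1
      obtain ⟨q1, q2⟩ := half_re' w
      refine ⟨1 / 2 + w, w1, by rw [q1]; linarith, ?_⟩
      rw [q2, ← hzim]
      exact w4
  · obtain ⟨C1, hC1, HRA⟩ := h4 K A2 k hK hA23
    obtain ⟨C, hC⟩ : ∃ C : ℝ, C = 2 * C1 + 1400 * m + 1400 * m + C1 * (1 + 10 * m) + 4 * k := ⟨_, rfl⟩
    have hq : 0 ≤ C1 * (1 + 10 * m) := by positivity
    have hC0 : 1 ≤ C := by rw [hC]; linarith
    refine ⟨C, hC0, ?_⟩
    intro N μ X ho hμ cs hcs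
    -- one side, heights `≥ 0`
    have half : ∀ (μ : Fin m → ℂ) (X : ℂ → ℂ), WP r B N μ X → (∀ j, ‖μ j‖ ≤ M) → ∀ T : ℝ, 0 ≤ T →
        C ≤ Real.log (cnd N μ T) →
        (∀ s : ℂ, It X cs s = 0 → 1 / 2 < s.re → s.re ≤ 5 / 2 →
          C * Real.log (cnd N μ T) < |s.im - T|) →
        ∀ s : ℂ, X s = 0 → s.im = T → |s.re - 1 / 2| ≤
          C * (Real.log (Real.log (Real.log (cnd N μ T))) / Real.log (Real.log (cnd N μ T))) := by
      intro μ X ho hμ T hT0 hcn hno s hs hsT
      obtain ⟨hN, hre, hr1, hfe⟩ := wp_N ho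
      obtain ⟨L, hL⟩ : ∃ L : ℝ, L = Real.log (cnd N μ T) := ⟨_, rfl⟩
      obtain ⟨e1, e2⟩ := el_bd hN hre T
      rw [← hL] at hcn hno e1 e2 ⊢
      obtain ⟨e, he⟩ : ∃ e : ℝ, e = el N μ T := ⟨_, rfl⟩
      rw [← he] at e1 e2
      have he1 : C1 ≤ e := by linarith
      have hrate := rate (e := e) (L := L) (a := 14 * m) (b := 10 * m) (by linarith) (by linarith)
        (by linarith) e1 e2
      have hCe : C1 * e ≤ C * L := by
        have e3 : C1 * e ≤ C1 * (1 + 10 * m) * L := by
          rw [mul_assoc]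
          refine mul_le_mul_of_nonneg_left ?_ (by linarith)
          nlinarith
        refine e3.trans (mul_le_mul_of_nonneg_right ?_ (by linarith))
        rw [hC]
        linarith
      have h6 : 4 * (k : ℝ) ≤ C * L := by
        have h7 : 4 * (k : ℝ) ≤ C := by rw [hC]; linarith
        have h8 : C ≤ C * L := by nlinarith
        linarith
      have hNZ : NZ (It (fc X) cs) 0 (T - 4 * k) (T + C1 * e) := by
        intro v hv1 hv2 hv3 hv4 hv5
        rw [It_shift] at hv5
        obtain ⟨q1, q2⟩ := half_re' v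
        have h9 := hno (1 / 2 + v) hv5 (by rw [q1]; linarith) (by rw [q1]; linarith)
        rw [q2] at h9
        have h10 : |v.im - T| ≤ C * L := by
          rw [abs_le]
          constructor <;> linarith
        linarith
      have hmain := HRA (-(4 * k)) (fc X) (el N μ) (gp r N μ) (hS N μ X ho hμ) cs (li_mono hA21 hcs) T
        (by linarith) (by rw [← he]; exact he1) (by rw [← he]; exact hNZ)
      rw [← he] at hmain
      -- one-sided bound
      have hone : ∀ s : ℂ, X s = 0 → s.im = T → s.re - 1 / 2 ≤ C * (Real.log (Real.log L) / Real.log L) := by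
        intro s hs hsT
        obtain ⟨hzre, hzim⟩ := half_re s
        have h9 : ¬ C1 * (Real.log (Real.log e) / Real.log e) ≤ (s - 1 / 2).re := by
          intro hc
          refine hmain (s - 1 / 2) (by rw [hzim]; exact hsT) hc ?_
          rw [fc_zero, show (1 / 2 + (s - 1 / 2) : ℂ) = s by ring]
          exact hs
        push Not at h9
        rw [hzre] at h9
        have hLL : 0 ≤ Real.log (Real.log L) / Real.log L := by
          have hL4 : 4 ≤ Real.log L := by
            rw [Real.le_log_iff_exp_le (by linarith)]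
            have h3 : Real.exp 4 = Real.exp 1 ^ 4 := by rw [← Real.exp_nat_mul]; norm_num
            have h4 := Real.exp_one_lt_d9
            have h5 : Real.exp 1 ^ 4 ≤ 2.72 ^ 4 := pow_le_pow_left₀ (Real.exp_pos 1).le (by linarith) 4
            rw [h3]
            refine h5.trans ?_
            norm_num
            linarith
          exact div_nonneg (Real.log_nonneg (by linarith)) (by linarith)
        have h10 : C1 * (Real.log (Real.log e) / Real.log e) ≤
            C1 * (2 * (Real.log (Real.log L) / Real.log L)) :=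
          mul_le_mul_of_nonneg_left hrate (by linarith)
        have h11 : C1 * (2 * (Real.log (Real.log L) / Real.log L)) ≤
            C * (Real.log (Real.log L) / Real.log L) := by
          rw [← mul_assoc]
          refine mul_le_mul_of_nonneg_right ?_ hLL
          rw [hC]
          linarith
        linarith
      rw [abs_le]
      constructor
      · have h9 := hone (1 - conj s) (hfe s hs) (by simp [hsT])
        have e3 : (1 - conj s).re = 1 - s.re := by simp
        rw [e3] at h9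
        linarith
      · exact hone s hs hsT
    intro T hcn hno s hs hsT
    rcases le_total 0 T with h0 | h0
    · exact half μ X ho hμ T h0 hcn hno s hs hsT
    · have hN := (wp_N ho).1
      have h9 := half (fun j => conj (μ j)) (du X) (wp_du h2 ho) (hconjM μ hμ) (-T) (by linarith)
        (by rw [cnd_du]; exact hcn) (fun v hv hv1 hv2 => by
          rw [It_du] at hv
          have h10 := hno (conj v) ((map_eq_zero _).1 hv) (by rw [conj_re]; exact hv1)
            (by rw [conj_re]; exact hv2)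
          rw [conj_im] at h10
          rw [cnd_du]
          have e : -v.im - T = -(v.im - -T) := by ring
          rwa [e, abs_neg] at h10) (conj s) (du_zero.2 hs) (by rw [conj_im, hsT])
      rw [conj_re, cnd_du] at h9
      exact h9

end Pool.Agent.Q177.DS
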